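import Pool.Agent.H66.SG.T7
import Pool.Agent.H17.AG.S3

/-!
SHARP GAP (`MP_c59857_nt`), row S3: errors of the pairs, uniformly in the shift, for an arbitrary
last tuple.
-/

set_option autoImplicit false

open MeasureTheory ProbabilityTheory Filter Topology Finset
open scoped Nat ENNReal

namespace Pool.Agent.H17.SG

open Pool.Agent.H67.AG (ul Inv Rt Av SA kap JJ TT InvZ nxt triv tow XN PN TN XX PX TX prX Fac
  Tup dl Dlt Mis Sw SwE T_EC T_PW)
open Pool.Agent.H17.AG (inv_le inv_mono inv_pre meas_iter shift_int meas_sel int_bdd ce_shift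
  ce_avg mv_meas mv_nonneg mv_le mv_int Dlt_pos g_meas)
open Pool.Agent.H66.SG

section gen

variable {Ω : Type} [mΩ : MeasurableSpace Ω]

theorem av_meas (T : Ω ≃ᵐ Ω) (W n : ℕ) (f : Ω → ℝ) (hf : Measurable f) :
    Measurable (Av T W n f) := by
  unfold Av
  exact (Finset.measurable_sum _ fun l _ => hf.comp (meas_iter T _)).div_const _

theorem av_bdd (T : Ω ≃ᵐ Ω) (W n : ℕ) (f : Ω → ℝ) (hn : 0 < n) (hb : ∀ ω, |f ω| ≤ 1) (ω : Ω) :
    |Av T W n f ω| ≤ 1 := by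
  have hn' : (0 : ℝ) < n := by exact_mod_cast hn
  unfold Av
  rw [abs_div, abs_of_pos hn', div_le_one hn']
  refine (Finset.abs_sum_le_sum_abs _ _).trans ((Finset.sum_le_sum fun l _ => hb _).trans ?_)
  simp

/-- conditional expectation of an average -/
theorem ce_av {Ω : Type} (m : MeasurableSpace Ω) [mΩ : MeasurableSpace Ω] (P : Measure Ω)
    [IsProbabilityMeasure P] (T : Ω ≃ᵐ Ω)
    (W n : ℕ) (f : Ω → ℝ) (hf : Measurable f) (hb : ∀ ω, |f ω| ≤ 1) :
    P[Av T W n f | m] =ᵐ[P]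
      fun ω => (∑ l ∈ range n, (P[fun ω' => f (T^[W * l] ω') | m]) ω) / n := by
  have hint : ∀ l ∈ range n, Integrable (fun ω => f (T^[W * l] ω)) P := fun l _ =>
    int_bdd P _ (hf.comp (meas_iter T _)) 1 fun ω => hb _
  have h1 : Av T W n f = fun ω => (n : ℝ)⁻¹ * (∑ l ∈ range n, fun ω => f (T^[W * l] ω)) ω := by
    funext ω
    rw [Finset.sum_apply, Av, div_eq_inv_mul]
  have h2 : P[Av T W n f | m] =ᵐ[P]
      fun ω => (n : ℝ)⁻¹ * (P[∑ l ∈ range n, fun ω => f (T^[W * l] ω) | m]) ω := by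
    rw [h1]
    exact condExp_smul (n : ℝ)⁻¹ (∑ l ∈ range n, fun ω => f (T^[W * l] ω)) m
  have h3 := condExp_finsetSum (μ := P) (s := range n) (f := fun l ω => f (T^[W * l] ω)) hint m
  filter_upwards [h2, h3] with ω e2 e3
  rw [e2, e3, Finset.sum_apply, div_eq_inv_mul]

/-- double averages -/
theorem av_av (T : Ω ≃ᵐ Ω) (W n L : ℕ) (f : Ω → ℝ) (hn : 0 < n) (hL : 0 < L)
    (hb : ∀ ω, |f ω| ≤ 1) (ω : Ω) :
    |Av T W L (Av T W n f) ω - Av T W L f ω| ≤ n / L := by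
  have hn' : (0 : ℝ) < n := by exact_mod_cast hn
  have hL' : (0 : ℝ) < L := by exact_mod_cast hL
  set F : ℕ → ℝ := fun l => f (T^[W * l] ω) with hF
  have hFb : ∀ l, |F l| ≤ 1 := fun l => hb _
  have h1 : Av T W L (Av T W n f) ω = (∑ r ∈ range n, (∑ l ∈ range L, F (l + r))) / n / L := by
    unfold Av
    rw [← Finset.sum_div, Finset.sum_comm]
    congr 2
    refine Finset.sum_congr rfl fun r _ => Finset.sum_congr rfl fun l _ => ?_
    simp only [hF]
    rw [← Function.iterate_add_apply, ← Nat.mul_add, Nat.add_comm r l]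
  have h2 : Av T W L f ω = (∑ r ∈ range n, (∑ l ∈ range L, F l)) / n / L := by
    unfold Av
    rw [Finset.sum_const, card_range, nsmul_eq_mul]
    field_simp
    rfl
  have h3 : ∀ r, |(∑ l ∈ range L, F (l + r)) - ∑ l ∈ range L, F l| ≤ 2 * r := by
    intro r
    induction r with
    | zero => simp
    | succ r ih =>
      have e1 : (∑ l ∈ range L, F (l + (r + 1))) - ∑ l ∈ range L, F (l + r) = F (L + r) - F r := by
        have := Finset.sum_range_succ (fun l => F (l + r)) L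
        have h' := Finset.sum_range_succ' (fun l => F (l + r)) L
        simp only [Nat.zero_add] at h'
        have e2 : ∑ l ∈ range L, F (l + 1 + r) = ∑ l ∈ range L, F (l + (r + 1)) :=
          Finset.sum_congr rfl fun l _ => by rw [Nat.add_assoc, Nat.add_comm 1 r]
        rw [e2] at h'
        linarith
      have e2 : |F (L + r) - F r| ≤ 2 := by
        have h3 := abs_sub (F (L + r)) (F r)
        have h4 := hFb (L + r)
        have h5 := hFb r
        linarith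
      have e3 : (∑ l ∈ range L, F (l + (r + 1))) - ∑ l ∈ range L, F l =
        ((∑ l ∈ range L, F (l + (r + 1))) - ∑ l ∈ range L, F (l + r)) +
        ((∑ l ∈ range L, F (l + r)) - ∑ l ∈ range L, F l) := by ring
      rw [e3]
      refine (abs_add_le _ _).trans ?_
      rw [e1]
      push_cast
      linarith
  rw [h1, h2, ← sub_div, ← sub_div, ← Finset.sum_sub_distrib, abs_div, abs_div, abs_of_pos hn',
    abs_of_pos hL', div_le_div_iff_of_pos_right hL', div_le_iff₀ hn']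
  refine (Finset.abs_sum_le_sum_abs _ _).trans ((Finset.sum_le_sum fun r _ => h3 r).trans ?_)
  rw [← Finset.mul_sum]
  have h4 : ∀ n : ℕ, 2 * ∑ r ∈ range n, (r : ℝ) ≤ n * n := by
    intro n
    induction n with
    | zero => simp
    | succ n ih =>
      rw [Finset.sum_range_succ, mul_add]
      push_cast
      nlinarith
  exact h4 n

/-- the conditional expectations for a power and for `T ^ W` -/
theorem ce_pow (hec : T_EC) (hpw : T_PW) (P : Measure Ω) [IsProbabilityMeasure P] (T : Ω ≃ᵐ Ω)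
    (hT : MeasurePreserving T P P) (W D L : ℕ) (hW : 0 < W) (hD : 0 < D) (hL : 0 < L)
    (f : Ω → ℝ) (hf : Measurable f) (hb : ∀ ω, |f ω| ≤ 1) (A : Set Ω)
    (hA : MeasurableSet[Inv T W] A) :
    ∫ ω in A, |(P[f | Inv T (W * D)]) ω - (P[f | Inv T W]) ω| ∂P ≤
      ∫ ω in A, |Av T (W * D) L f ω - Av T W L f ω| ∂P + D / L * P.real A := by
  have hIJ : Inv T W ≤ Inv T (W * D) := inv_mono T W _
  have hAm : MeasurableSet A := inv_le T W A hA
  have h1 : P[Av T (W * D) L f | Inv T (W * D)] =ᵐ[P] P[f | Inv T (W * D)] :=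
    ce_avg hec P T hT (W * D) L hL f hf ⟨1, hb⟩
  set g : Ω → ℝ := Av T W D f with hg
  have gm : Measurable g := av_meas T W D f hf
  have gb : ∀ ω, |g ω| ≤ 1 := av_bdd T W D f hD hb
  have h2 : P[Av T W L g | Inv T (W * D)] =ᵐ[P] P[f | Inv T W] := by
    have a1 := ce_av (Inv T (W * D)) P T W L g gm gb
    have a2 : ∀ᵐ ω ∂P, ∀ l : ℕ, (P[fun ω' => g (T^[W * l] ω') | Inv T (W * D)]) ω =
        (P[f | Inv T W]) ω := by
      refine ae_all_iff.2 fun l => ?_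
      have b1 : (fun ω' => g (T^[W * l] ω')) = Av T W D (fun ω' => f (T^[W * l] ω')) := by
        funext ω'
        simp only [hg]
        unfold Av
        congr 1
        refine Finset.sum_congr rfl fun r _ => ?_
        change f _ = f _
        rw [← Function.iterate_add_apply, ← Function.iterate_add_apply, Nat.add_comm]
      have b2 := ce_av (Inv T (W * D)) P T W D (fun ω' => f (T^[W * l] ω'))
        (hf.comp (meas_iter T _)) (fun ω => hb _)
      have b3 := hpw Ω P T W D (fun ω' => f (T^[W * l] ω')) hT (hf.comp (meas_iter T _))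
        ⟨1, fun ω => hb _⟩ hW hD
      have b4 := ce_shift hec P T hT W l f hf ⟨1, hb⟩
      rw [b1]
      filter_upwards [b2, b3, b4] with ω e2 e3 e4
      rw [e2, ← e4, e3]
    filter_upwards [a1, a2] with ω e1 e2
    rw [e1, Finset.sum_congr rfl fun l _ => e2 l, Finset.sum_const, card_range, nsmul_eq_mul]
    have hL' : (L : ℝ) ≠ 0 := by exact_mod_cast hL.ne'
    field_simp
  have i1 : Integrable (Av T (W * D) L f) P :=
    int_bdd P _ (av_meas T _ _ f hf) 1 (av_bdd T _ _ f hL hb)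
  have i2 : Integrable (Av T W L g) P :=
    int_bdd P _ (av_meas T _ _ g gm) 1 (av_bdd T _ _ g hL gb)
  have i3 : Integrable (Av T W L f) P :=
    int_bdd P _ (av_meas T _ _ f hf) 1 (av_bdd T _ _ f hL hb)
  have h3 : P[Av T (W * D) L f - Av T W L g | Inv T (W * D)] =ᵐ[P]
      P[Av T (W * D) L f | Inv T (W * D)] - P[Av T W L g | Inv T (W * D)] :=
    condExp_sub i1 i2 _
  have h4 : ∫ ω in A, |(P[f | Inv T (W * D)]) ω - (P[f | Inv T W]) ω| ∂P =
      ∫ ω in A, |(P[Av T (W * D) L f - Av T W L g | Inv T (W * D)]) ω| ∂P := by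
    refine integral_congr_ae (ae_restrict_of_ae ?_)
    filter_upwards [h1, h2, h3] with ω e1 e2 e3
    rw [e3, Pi.sub_apply, e1, e2]
  rw [h4]
  refine (setIntegral_abs_condExp_le (μ := P) (hIJ A hA) (Av T (W * D) L f - Av T W L g)).trans ?_
  have h5 : ∫ ω in A, (D / L : ℝ) ∂P = D / L * P.real A := by
    rw [setIntegral_const, smul_eq_mul, mul_comm]
  rw [← h5]
  have i4 : Integrable (fun ω => |Av T (W * D) L f ω - Av T W L f ω|) (P.restrict A) :=
    ((i1.sub i3).abs).integrableOn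
  have i5 : Integrable (fun _ => (D / L : ℝ)) (P.restrict A) :=
    (integrable_const (D / L : ℝ)).integrableOn
  rw [← integral_add i4 i5]
  refine integral_mono ((i1.sub i2).abs.integrableOn) (i4.add i5) fun ω => ?_
  have h6 := av_av T W D L f hD hL hb ω
  change |Av T (W * D) L f ω - Av T W L g ω| ≤
    |Av T (W * D) L f ω - Av T W L f ω| + (D / L : ℝ)
  have h7 : Av T (W * D) L f ω - Av T W L g ω = (Av T (W * D) L f ω - Av T W L f ω) -
    (Av T W L g ω - Av T W L f ω) := by ring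
  rw [h7]
  exact (abs_sub _ _).trans (add_le_add le_rfl h6)

end gen

section S3

variable {d : Sw} (e : SwE d) (yl : Fin d.k → e.Ω → ℝ)

theorem tup_abs {Ω : Type} [MeasurableSpace Ω] {k : ℕ} {y : Fin k → Ω → ℝ} (hy : Tup y)
    (i : Fin k) (ω : Ω) : |y i ω| = 1 := by
  rcases hy.2 i ω with h | h <;> rw [h] <;> simp

theorem gl_meas (hy : Tup yl) (b : Fin d.n) (i : Fin d.k) : Measurable (gl e yl b i) := by
  have h1 : Measurable (e.yb b i) := ((d.hy b).1 i).comp (g_meas e)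
  exact (hy.1 i).mul h1

theorem gl_abs (hy : Tup yl) (b : Fin d.n) (i : Fin d.k) (ω : e.Ω) : |gl e yl b i ω| ≤ 1 := by
  have h1 : |e.yb b i ω| = 1 := tup_abs (d.hy b) i (e.g ω)
  unfold gl
  rw [abs_mul, tup_abs hy, h1, one_mul]

/-- the selected product -/
noncomputable def Ph (t : ℕ) (i : Fin d.k) (ω : e.Ω) : ℝ := gl e yl (e.s (e.T^[d.W * t] ω)) i ω

theorem Ph_meas (hy : Tup yl) (t : ℕ) (i : Fin d.k) : Measurable (Ph e yl t i) :=
  meas_sel _ _ e.sm (e.sm.comp (meas_iter e.T (d.W * t))) (fun _ b => gl e yl b i)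
    (fun _ b => gl_meas e yl hy b i)

theorem Ph_abs (hy : Tup yl) (t : ℕ) (i : Fin d.k) (ω : e.Ω) : |Ph e yl t i ω| ≤ 1 :=
  gl_abs e yl hy _ i ω

/-- the mismatch in terms of a product -/
theorem dl_ph (hy : Tup yl) (t : ℕ) (i : Fin d.k) (ω : e.Ω) : dl yl (e.yt t) i ω =
    (1 - Ph e yl t i ω) / 2 := by
  unfold dl Ph gl SwE.yt SwE.yb
  rcases hy.2 i ω with h1 | h1 <;>
  rcases (d.hy (e.s (e.T^[d.W * t] ω))).2 i (e.g ω) with h2 | h2 <;>
  rw [h1, h2] <;> norm_num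

/-- averages of the selected product -/
theorem ph_av (hy : Tup yl) (t : ℕ) (i : Fin d.k) (L E : ℕ) (hL : 0 < L) (ω : e.Ω) :
    |Av e.T (d.W * E) L (Ph e yl t i) ω -
      Av e.T (d.W * E) L (gl e yl (e.s (e.T^[d.W * t] ω)) i) ω| ≤
      2 * (L : ℝ)⁻¹ * ∑ l ∈ range L, e.mv (E * l) (e.T^[d.W * t] ω) := by
  have hLr : (0 : ℝ) < L := by exact_mod_cast hL
  unfold Av
  rw [← sub_div, ← Finset.sum_sub_distrib, abs_div, abs_of_pos hLr, div_eq_inv_mul,
    mul_comm (2 : ℝ), mul_assoc]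
  refine mul_le_mul_of_nonneg_left ?_ (by positivity)
  rw [Finset.mul_sum]
  refine (Finset.abs_sum_le_sum_abs _ _).trans (Finset.sum_le_sum fun l _ => ?_)
  have hc : e.T^[d.W * t] (e.T^[d.W * E * l] ω) = e.T^[d.W * (E * l)] (e.T^[d.W * t] ω) := by
    rw [← Function.iterate_add_apply, ← Function.iterate_add_apply, Nat.add_comm, mul_assoc]
  unfold Ph
  rw [hc]
  by_cases h : e.s (e.T^[d.W * (E * l)] (e.T^[d.W * t] ω)) = e.s (e.T^[d.W * t] ω)
  · rw [h, sub_self, abs_zero]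
    have := mv_nonneg e (E * l) (e.T^[d.W * t] ω)
    linarith
  · have h3 : e.mv (E * l) (e.T^[d.W * t] ω) = 1 := by unfold SwE.mv; exact if_neg h
    rw [h3]
    have h4 := gl_abs e yl hy (e.s (e.T^[d.W * (E * l)] (e.T^[d.W * t] ω))) i
      (e.T^[d.W * E * l] ω)
    have h5 := gl_abs e yl hy (e.s (e.T^[d.W * t] ω)) i (e.T^[d.W * E * l] ω)
    have h6 := abs_sub (gl e yl (e.s (e.T^[d.W * (E * l)] (e.T^[d.W * t] ω))) i
      (e.T^[d.W * E * l] ω)) (gl e yl (e.s (e.T^[d.W * t] ω)) i (e.T^[d.W * E * l] ω))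
    linarith

/-- integral of the bound -/
theorem mvs_int (t E L : ℕ) (A : Set e.Ω) (hA : MeasurableSet[Inv e.T d.W] A) :
    ∫ ω in A, 2 * (L : ℝ)⁻¹ * ∑ l ∈ range L, e.mv (E * l) (e.T^[d.W * t] ω) ∂e.P =
      2 * (1 / (L : ℝ) * ∑ l ∈ range L, ∫ ω in A, e.mv (E * l) ω ∂e.P) := by
  have i2 : ∀ l ∈ range L, Integrable (fun ω => e.mv (E * l) (e.T^[d.W * t] ω))
      (e.P.restrict A) := fun l _ =>
    (int_bdd e.P (fun ω => e.mv (E * l) (e.T^[d.W * t] ω)) ((mv_meas e _).comp (meas_iter e.T _)) 1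
      fun ω => by
        rw [abs_of_nonneg (mv_nonneg e _ _)]; exact mv_le e _ _).integrableOn
  rw [integral_const_mul, integral_finsetSum _ i2, Finset.sum_congr rfl fun l _ =>
    shift_int e.P e.T e.mp d.W t A hA (e.mv (E * l)) (mv_meas e _)]
  ring

end S3

theorem pf_S3 (hec : T_EC) (hpw : T_PW) : T_S3 := by
  intro d e yl L t i A hy hL hA
  have hW := d.hW
  have hD : 0 < Dlt d.β := Dlt_pos d.β
  have hJm : Inv e.T (d.W * Dlt d.β) ≤ e.mΩ := inv_le e.T _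
  have hIm : Inv e.T d.W ≤ e.mΩ := inv_le e.T _
  have hAm : MeasurableSet A := hIm A hA
  have hLr : (0 : ℝ) < L := by exact_mod_cast hL
  set Φ : e.Ω → ℝ := Ph e yl t i with hΦ
  have Φm : Measurable Φ := Ph_meas e yl hy t i
  have Φb : ∀ ω, |Φ ω| ≤ 1 := Ph_abs e yl hy t i
  have Φi : Integrable Φ e.P := int_bdd e.P _ Φm 1 Φb
  -- the mismatch
  have hF : dl yl (e.yt t) i = fun ω => (1 / 2 : ℝ) - (1 / 2 : ℝ) * Φ ω := by
    funext ω
    rw [dl_ph e yl hy]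
    ring
  have hce : ∀ m : MeasurableSpace e.Ω, m ≤ e.mΩ → e.P[dl yl (e.yt t) i | m] =ᵐ[e.P]
      fun ω => (1 / 2 : ℝ) - (1 / 2 : ℝ) * (e.P[Φ | m]) ω := by
    intro m hm
    have h1 : e.P[dl yl (e.yt t) i | m] =ᵐ[e.P]
        e.P[fun _ => (1 / 2 : ℝ) | m] - e.P[(1 / 2 : ℝ) • Φ | m] := by
      rw [hF]
      exact condExp_sub (integrable_const _) (Φi.const_mul _) m
    have h2 : e.P[(1 / 2 : ℝ) • Φ | m] =ᵐ[e.P] (1 / 2 : ℝ) • e.P[Φ | m] := condExp_smul _ _ m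
    have h3 : e.P[fun _ => (1 / 2 : ℝ) | m] = fun _ => (1 / 2 : ℝ) := condExp_const hm _
    filter_upwards [h1, h2] with ω e1 e2
    rw [e1, Pi.sub_apply, e2, h3]
    rfl
  have hlhs : ∫ ω in A, |(e.P[dl yl (e.yt t) i | Inv e.T (d.W * Dlt d.β)]) ω -
      (e.P[dl yl (e.yt t) i | Inv e.T d.W]) ω| ∂e.P =
      1 / 2 * ∫ ω in A, |(e.P[Φ | Inv e.T (d.W * Dlt d.β)]) ω - (e.P[Φ | Inv e.T d.W]) ω| ∂e.P := by
    rw [← integral_const_mul]
    refine integral_congr_ae (ae_restrict_of_ae ?_)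
    filter_upwards [hce _ hJm, hce _ hIm] with ω e1 e2
    rw [e1, e2]
    have : (1 / 2 : ℝ) - 1 / 2 * (e.P[Φ | Inv e.T (d.W * Dlt d.β)]) ω -
        (1 / 2 - 1 / 2 * (e.P[Φ | Inv e.T d.W]) ω) =
      (-(1 / 2)) * ((e.P[Φ | Inv e.T (d.W * Dlt d.β)]) ω - (e.P[Φ | Inv e.T d.W]) ω) := by ring
    rw [this, abs_mul]
    norm_num
  have hmain := ce_pow hec hpw e.P e.T e.mp d.W (Dlt d.β) L hW hD hL Φ Φm Φb A hA
  -- pointwise
  set X : Fin d.n → e.Ω → ℝ := fun b ω =>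
    |Av e.T (d.W * Dlt d.β) L (gl e yl b i) ω - Av e.T d.W L (gl e yl b i) ω| with hX
  have Xm : ∀ b, Measurable (X b) := fun b =>
    ((av_meas e.T _ _ _ (gl_meas e yl hy b i)).sub (av_meas e.T _ _ _ (gl_meas e yl hy b i))).abs
  have Xb : ∀ b ω, |X b ω| ≤ 2 := by
    intro b ω
    have h1 := av_bdd e.T (d.W * Dlt d.β) L (gl e yl b i) hL (gl_abs e yl hy b i) ω
    have h2 := av_bdd e.T d.W L (gl e yl b i) hL (gl_abs e yl hy b i) ω
    have h3 := abs_sub (Av e.T (d.W * Dlt d.β) L (gl e yl b i) ω) (Av e.T d.W L (gl e yl b i) ω)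
    simp only [hX]
    rw [abs_abs]
    linarith
  have Xi : ∀ b, Integrable (X b) (e.P.restrict A) := fun b =>
    (int_bdd e.P _ (Xm b) 2 (Xb b)).integrableOn
  set Y : ℕ → e.Ω → ℝ := fun E ω =>
    2 * (L : ℝ)⁻¹ * ∑ l ∈ range L, e.mv (E * l) (e.T^[d.W * t] ω) with hY
  have Yi : ∀ E, Integrable (Y E) (e.P.restrict A) := by
    intro E
    refine (integrable_finsetSum _ fun l _ => ?_).const_mul _
    exact (int_bdd e.P (fun ω => e.mv (E * l) (e.T^[d.W * t] ω))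
      ((mv_meas e _).comp (meas_iter e.T _)) 1 fun ω => by
        rw [abs_of_nonneg (mv_nonneg e _ _)]; exact mv_le e _ _).integrableOn
  have hpt : ∀ ω, |Av e.T (d.W * Dlt d.β) L Φ ω - Av e.T d.W L Φ ω| ≤
      (Y (Dlt d.β) ω + Y 1 ω) + ∑ b, X b ω := by
    intro ω
    set b₀ := e.s (e.T^[d.W * t] ω) with hb₀
    have h1 := ph_av e yl hy t i L (Dlt d.β) hL ω
    have h2 := ph_av e yl hy t i L 1 hL ω
    rw [Nat.mul_one] at h2
    have h3 : X b₀ ω ≤ ∑ b, X b ω := Finset.single_le_sum (f := fun b => X b ω)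
      (fun b _ => abs_nonneg _) (Finset.mem_univ b₀)
    have h4 : Av e.T (d.W * Dlt d.β) L Φ ω - Av e.T d.W L Φ ω =
      (Av e.T (d.W * Dlt d.β) L Φ ω - Av e.T (d.W * Dlt d.β) L (gl e yl b₀ i) ω) +
      (Av e.T (d.W * Dlt d.β) L (gl e yl b₀ i) ω - Av e.T d.W L (gl e yl b₀ i) ω) -
      (Av e.T d.W L Φ ω - Av e.T d.W L (gl e yl b₀ i) ω) := by ring
    rw [h4]
    have h5 := abs_sub ((Av e.T (d.W * Dlt d.β) L Φ ω - Av e.T (d.W * Dlt d.β) L
      (gl e yl b₀ i) ω) + (Av e.T (d.W * Dlt d.β) L (gl e yl b₀ i) ω - Av e.T d.W L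
      (gl e yl b₀ i) ω)) (Av e.T d.W L Φ ω - Av e.T d.W L (gl e yl b₀ i) ω)
    have h6 := abs_add_le (Av e.T (d.W * Dlt d.β) L Φ ω - Av e.T (d.W * Dlt d.β) L
      (gl e yl b₀ i) ω) (Av e.T (d.W * Dlt d.β) L (gl e yl b₀ i) ω - Av e.T d.W L
      (gl e yl b₀ i) ω)
    have h7 : |Av e.T (d.W * Dlt d.β) L (gl e yl b₀ i) ω - Av e.T d.W L
      (gl e yl b₀ i) ω| ≤ ∑ b, X b ω := h3
    have h8 : |Av e.T (d.W * Dlt d.β) L Φ ω - Av e.T (d.W * Dlt d.β) L
      (gl e yl b₀ i) ω| ≤ Y (Dlt d.β) ω := h1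
    have h9 : |Av e.T d.W L Φ ω - Av e.T d.W L (gl e yl b₀ i) ω| ≤ Y 1 ω := h2
    linarith
  have iA : Integrable (fun ω => |Av e.T (d.W * Dlt d.β) L Φ ω - Av e.T d.W L Φ ω|)
      (e.P.restrict A) :=
    (((int_bdd e.P _ (av_meas e.T _ _ _ Φm) 1 (av_bdd e.T _ _ _ hL Φb)).sub
      (int_bdd e.P _ (av_meas e.T _ _ _ Φm) 1 (av_bdd e.T _ _ _ hL Φb))).abs).integrableOn
  have iX : Integrable (fun ω => ∑ b, X b ω) (e.P.restrict A) :=
    integrable_finsetSum _ fun b _ => Xi b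
  have iY : Integrable (fun ω => Y (Dlt d.β) ω + Y 1 ω) (e.P.restrict A) := (Yi _).add (Yi 1)
  have hint : ∫ ω in A, |Av e.T (d.W * Dlt d.β) L Φ ω - Av e.T d.W L Φ ω| ∂e.P ≤
      (2 * (1 / (L : ℝ) * ∑ l ∈ range L, ∫ ω in A, e.mv (Dlt d.β * l) ω ∂e.P) +
      2 * (1 / (L : ℝ) * ∑ l ∈ range L, ∫ ω in A, e.mv l ω ∂e.P)) +
      ∑ b, ∫ ω in A, X b ω ∂e.P := by
    refine (integral_mono iA (iY.add iX) hpt).trans (le_of_eq ?_)
    have e0 : ∫ ω in A, ((fun ω => Y (Dlt d.β) ω + Y 1 ω) + fun ω => ∑ b, X b ω) ω ∂e.P =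
        (∫ ω in A, (Y (Dlt d.β) ω + Y 1 ω) ∂e.P) + ∫ ω in A, ∑ b, X b ω ∂e.P :=
      integral_add' iY iX
    have e1 : ∫ ω in A, (Y (Dlt d.β) ω + Y 1 ω) ∂e.P =
      (∫ ω in A, Y (Dlt d.β) ω ∂e.P) + ∫ ω in A, Y 1 ω ∂e.P := integral_add (Yi _) (Yi 1)
    have e2 : ∫ ω in A, Y (Dlt d.β) ω ∂e.P =
      2 * (1 / (L : ℝ) * ∑ l ∈ range L, ∫ ω in A, e.mv (Dlt d.β * l) ω ∂e.P) :=
      mvs_int e t (Dlt d.β) L A hA
    have e3 : ∫ ω in A, Y 1 ω ∂e.P =
      2 * (1 / (L : ℝ) * ∑ l ∈ range L, ∫ ω in A, e.mv l ω ∂e.P) := by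
      have := mvs_int e t 1 L A hA
      simp only [Nat.one_mul] at this
      simp only [hY, Nat.one_mul]
      exact this
    rw [e0, e1, e2, e3, integral_finsetSum _ fun b _ => Xi b]
  have n1 : 0 ≤ 1 / (Dlt d.β : ℝ) * ∑ r ∈ range (Dlt d.β), ∫ ω in A, e.mv r ω ∂e.P :=
    mul_nonneg (by positivity) (Finset.sum_nonneg fun r _ =>
      integral_nonneg fun ω => mv_nonneg e r ω)
  have n2 : 0 ≤ ∑ b, ∫ ω in A, X b ω ∂e.P :=
    Finset.sum_nonneg fun b _ => integral_nonneg fun ω => abs_nonneg _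
  have n3 : 0 ≤ (Dlt d.β : ℝ) / L * e.P.real A := by positivity
  rw [hlhs]
  unfold E4
  have e5 : ∑ b, ∫ ω in A, |Av e.T (d.W * Dlt d.β) L (gl e yl b i) ω -
    Av e.T d.W L (gl e yl b i) ω| ∂e.P = ∑ b, ∫ ω in A, X b ω ∂e.P := rfl
  rw [e5]
  linarith

end Pool.Agent.H17.SG
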